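import Pool.Agent.helper95.AvgTree

/-!
The `L^1` mixing time of the averaging process is not `Θ(max{γ(G), n log n})`: the ratio can be
of order `log n`.
-/

namespace Pool.Agent.Results.MP_9aa425_pr.LogFactor

open Pool.Agent.helper95.Avg Finset

lemma tmix_lower (m : ℕ) (hm : 1 ≤ m) (ε : ℝ) (hε0 : 0 < ε) (hε1 : ε < 1) :
    (m : ℝ) * (Nat.card (treeClique (2 * m)).edgeSet : ℝ) / 4 ≤
      (tmix (treeClique (2 * m)) ε : ℝ) := by
  classical
  set G := treeClique (2 * m) with hG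
  rw [Nat.card_eq_fintype_card]
  have hKpow : (2 : ℝ) ^ (2 * m) = (2 ^ m : ℝ) ^ 2 := by rw [mul_comm, pow_mul]
  have h2m : (2 : ℝ) ≤ 2 ^ m := by
    calc (2 : ℝ) = 2 ^ 1 := by norm_num
      _ ≤ 2 ^ m := pow_le_pow_right₀ (by norm_num) hm
  have hK4 : (4 : ℝ) ≤ 2 ^ (2 * m) := by rw [hKpow]; nlinarith
  have hedge := edges_lower (2 * m)
  rw [← hG] at hedge
  have hEpos : 0 < (Fintype.card G.edgeSet : ℝ) := by nlinarith
  have hE : 0 < Fintype.card G.edgeSet := by exact_mod_cast hEpos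
  have hV : 0 < 2 * 2 ^ (2 * m) := by positivity
  have : Nonempty (Fin (2 * 2 ^ (2 * m))) := ⟨⟨0, hV⟩⟩
  -- the set in the definition of the mixing time is nonempty
  obtain ⟨t0, ht0⟩ := exists_mixed G (by convert hE) 6 (by norm_num)
    (treeClique_poincare (2 * m)) ε hε0
  have hmem : tmix G ε ∈ {t : ℕ | ∀ v : Fin (2 * 2 ^ (2 * m)) → ℝ,
      (∑ x, |v x|) = 1 → expDist G t v ≤ ε} := Nat.sInf_mem ⟨t0, ht0⟩
  set t := tmix G ε with ht
  -- the starting point: unit mass at the root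
  have h1lt : 1 < 2 * 2 ^ (2 * m) := by
    have : 1 ≤ 2 ^ (2 * m) := Nat.one_le_two_pow
    omega
  set r : Fin (2 * 2 ^ (2 * m)) := ⟨1, h1lt⟩ with hr
  set A : Finset (Fin (2 * 2 ^ (2 * m))) :=
    univ.filter (fun x : Fin (2 * 2 ^ (2 * m)) => 1 ≤ (x : ℕ) ∧ (x : ℕ) < 2 ^ m) with hA
  have hlow := expDist_lower G (by convert hE) (lev (2 * m)) (fun x => by
      unfold lev; split_ifs <;> positivity) 2 (fun i => by
        convert lev_drift (2 * m) i) A (m : ℝ) (by exact_mod_cast hm)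
      (fun x hx => by
        rw [hA, Finset.mem_filter] at hx
        unfold lev
        split_ifs with h0
        · push_cast
          have : (0 : ℝ) ≤ m := by positivity
          linarith
        · have h3 : 2 ^ m ≤ (x : ℕ) := by
            by_contra hcon
            exact hx ⟨Finset.mem_univ _, by omega, by omega⟩
          have h4 : m ≤ Nat.log 2 (x : ℕ) := by
            rw [Nat.le_log_iff_pow_le Nat.one_lt_two h0]; exact h3
          exact_mod_cast h4)
      r (by
        unfold lev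
        rw [if_neg (by simp [hr])]
        simp [hr]) t
  have hv1 : (∑ x : Fin (2 * 2 ^ (2 * m)), |(if x = r then (1 : ℝ) else 0)|) = 1 := by
    have : ∀ x : Fin (2 * 2 ^ (2 * m)), |(if x = r then (1 : ℝ) else 0)| =
        if x = r then (1 : ℝ) else 0 := by
      intro x; split_ifs <;> simp
    simp [this]
  have hup : expDist G t (fun x => @ite ℝ (x = r) (Classical.propDecidable _) 1 0) ≤ ε := by
    convert hmem _ hv1
  have hAcard : (A.card : ℝ) ≤ 2 ^ m := by
    have h1 : A.card ≤ (Finset.Ico 1 (2 ^ m)).card := by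
      refine Finset.card_le_card_of_injOn (fun x => (x : ℕ)) ?_ ?_
      · intro x hx
        rw [hA, Finset.coe_filter] at hx
        rw [Finset.coe_Ico]
        exact ⟨hx.2.1, hx.2.2⟩
      · intro x _ y _ hxy
        exact Fin.ext hxy
    rw [Nat.card_Ico] at h1
    have h2 : A.card ≤ 2 ^ m := h1.trans (Nat.sub_le _ _)
    exact_mod_cast h2
  have hcardV : (Fintype.card (Fin (2 * 2 ^ (2 * m))) : ℝ) = 2 * (2 ^ m : ℝ) ^ 2 := by
    rw [Fintype.card_fin]; push_cast; rw [hKpow]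
  have hterm : 2 * (A.card : ℝ) / (Fintype.card (Fin (2 * 2 ^ (2 * m))) : ℝ) ≤ 1 / 2 := by
    rw [hcardV, div_le_div_iff₀ (by positivity) (by norm_num)]
    nlinarith
  have hm0 : (0 : ℝ) < m := by exact_mod_cast hm
  have hEeq : (@Fintype.card G.edgeSet (SimpleGraph.fintypeEdgeSet G) : ℝ) =
      (Fintype.card G.edgeSet : ℝ) := by
    congr!
  by_contra hcon
  push Not at hcon
  have hlow' := hlow.trans hup
  have hfin : 2 * ((t : ℝ) * (2 / (2 * (Fintype.card G.edgeSet : ℝ)))) / m < 1 / 2 := by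
    rw [div_lt_iff₀ hm0]
    have h5 : 2 * ((t : ℝ) * (2 / (2 * (Fintype.card G.edgeSet : ℝ)))) =
        2 * (t : ℝ) / (Fintype.card G.edgeSet : ℝ) := by
      field_simp
    rw [h5, div_lt_iff₀ hEpos]
    linarith
  have hlow2 : 2 - 2 * (A.card : ℝ) / (Fintype.card (Fin (2 * 2 ^ (2 * m))) : ℝ) -
      2 * ((t : ℝ) * (2 / (2 * (Fintype.card G.edgeSet : ℝ)))) / m ≤ ε := by
    convert hlow'
  linarith

/-- For every `N` there is a connected graph `G` on `n ≥ N` vertices such that, for every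
`ε ∈ (0, 1)`, `t_{ε,1}(G) ≥ (1/72) log n · max{γ(G), n log n}`. -/
theorem result : ∀ N : ℕ, ∃ n : ℕ, N ≤ n ∧ 2 ≤ n ∧ ∃ G : SimpleGraph (Fin n), G.Connected ∧
    ∀ ε : ℝ, 0 < ε → ε < 1 →
      1 / 72 * Real.log n * max (gam G) (n * Real.log n) ≤ (tmix G ε : ℝ) := by
  classical
  intro N
  set m := N + 1 with hm
  have hm1 : 1 ≤ m := by omega
  refine ⟨2 * 2 ^ (2 * m), ?_, ?_, treeClique (2 * m), treeClique_connected _ (by omega), ?_⟩
  · have : 2 * m < 2 ^ (2 * m) := Nat.lt_two_pow_self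
    omega
  · have : 1 ≤ 2 ^ (2 * m) := Nat.one_le_two_pow
    omega
  intro ε hε0 hε1
  refine le_trans ?_ (tmix_lower m hm1 ε hε0 hε1)
  set G := treeClique (2 * m) with hG
  rw [Nat.card_eq_fintype_card]
  have hKpow : (2 : ℝ) ^ (2 * m) = (2 ^ m : ℝ) ^ 2 := by rw [mul_comm, pow_mul]
  have h2m : (2 : ℝ) ≤ 2 ^ m := by
    calc (2 : ℝ) = 2 ^ 1 := by norm_num
      _ ≤ 2 ^ m := pow_le_pow_right₀ (by norm_num) hm1
  have hK4 : (4 : ℝ) ≤ 2 ^ (2 * m) := by rw [hKpow]; nlinarith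
  have hedge := edges_lower (2 * m)
  rw [← hG] at hedge
  set E : ℝ := (Fintype.card G.edgeSet : ℝ) with hE
  set K : ℝ := (2 : ℝ) ^ (2 * m) with hK
  have hEpos : 0 < E := by nlinarith
  have hcast : ((2 * 2 ^ (2 * m) : ℕ) : ℝ) = 2 * K := by push_cast; rw [hK]
  rw [hcast]
  have hcardV : 2 ≤ Fintype.card (Fin (2 * 2 ^ (2 * m))) := by
    rw [Fintype.card_fin]
    have : 1 ≤ 2 ^ (2 * m) := Nat.one_le_two_pow
    omega
  have hlam := le_lambda2 G hcardV 6 (by norm_num) (treeClique_poincare (2 * m))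
  have hgam : gam G ≤ 6 * E := by
    have h1 : gam G = E / lambda2 G := by
      unfold gam
      rw [hE]
    have hl0 : 0 < lambda2 G := lt_of_lt_of_le (by norm_num) hlam
    rw [h1, div_le_iff₀ hl0]
    nlinarith
  have hlogK : Real.log (2 * K) = (2 * m + 1) * Real.log 2 := by
    rw [hK, ← pow_succ', Real.log_pow]; push_cast; ring
  have hlog2 : Real.log 2 < 1 := by
    have := Real.log_two_lt_d9; linarith
  have hlog2' : 0 < Real.log 2 := Real.log_pos (by norm_num)
  have hlogle : Real.log (2 * K) ≤ K := by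
    have hKpos : 0 < K := by linarith
    rw [Real.log_mul (by norm_num) hKpos.ne']
    have := Real.log_le_sub_one_of_pos hKpos
    linarith
  have hnlog : 2 * K * Real.log (2 * K) ≤ 6 * E := by
    have h1 : 2 * K * Real.log (2 * K) ≤ 2 * K * K :=
      mul_le_mul_of_nonneg_left hlogle (by linarith)
    nlinarith
  have hmax : max (gam G) (2 * K * Real.log (2 * K)) ≤ 6 * E := max_le hgam hnlog
  have hm1' : (1 : ℝ) ≤ m := by exact_mod_cast hm1
  have hlogbd : 1 / 72 * Real.log (2 * K) ≤ m / 24 := by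
    rw [hlogK]
    nlinarith
  have hlog0 : 0 ≤ 1 / 72 * Real.log (2 * K) := by
    rw [hlogK]; positivity
  calc 1 / 72 * Real.log (2 * K) * max (gam G) (2 * K * Real.log (2 * K))
      ≤ 1 / 72 * Real.log (2 * K) * (6 * E) := mul_le_mul_of_nonneg_left hmax hlog0
    _ ≤ m / 24 * (6 * E) := mul_le_mul_of_nonneg_right hlogbd (by positivity)
    _ = m * E / 4 := by ring

end Pool.Agent.Results.MP_9aa425_pr.LogFactor
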